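import Mathlib

/-!
# A Fréchet algebra without non-zero injective Fréchet modules
-/

set_option autoImplicit false

namespace Pool.Agent.X182.Fre

open scoped PowerSeries.WithPiTopology Topology

universe u v

/-- `X` is a complex Fréchet space: a Hausdorff, complete, metrizable (countably generated
uniformity), locally convex topological vector space over `ℂ`. -/
structure FrechetSpace (X : Type u) [AddCommGroup X] [Module ℂ X] [UniformSpace X] : Prop where
  isUniformAddGroup : IsUniformAddGroup X
  continuousSMul : ContinuousSMul ℂ X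
  locallyConvexSpace : LocallyConvexSpace ℝ X
  t2Space : T2Space X
  isCountablyGenerated : (uniformity X).IsCountablyGenerated
  completeSpace : CompleteSpace X

/-- `A` is a Fréchet algebra (not necessarily unital): a Fréchet space with an associative
bilinear jointly continuous multiplication. -/
structure FrechetAlgebra (A : Type v) [NonUnitalRing A] [Module ℂ A] [UniformSpace A] : Prop where
  frechet : FrechetSpace A
  smul_mul : ∀ (c : ℂ) (a b : A), (c • a) * b = c • (a * b)
  mul_smul : ∀ (c : ℂ) (a b : A), a * (c • b) = c • (a * b)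
  continuous_mul : Continuous fun p : A × A => p.1 * p.2

/-- A structure of Fréchet left `A`-module on `X`: `X` is a Fréchet space with a bilinear,
jointly continuous, associative action of `A`. -/
structure FrechetModule (A : Type v) [NonUnitalRing A] [Module ℂ A] [UniformSpace A]
    (X : Type u) [AddCommGroup X] [Module ℂ X] [UniformSpace X] where
  frechet : FrechetSpace X
  act : A →ₗ[ℂ] X →ₗ[ℂ] X
  act_mul : ∀ (a b : A) (x : X), act (a * b) x = act a (act b x)
  continuous_act : Continuous fun p : A × X => act p.1 p.2

/-- `φ` is a morphism of Fréchet `A`-modules (it is `A`-linear; continuity and `ℂ`-linearity are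
part of its type). -/
def IsMorphism {A : Type v} [NonUnitalRing A] [Module ℂ A] [UniformSpace A]
    {X : Type u} [AddCommGroup X] [Module ℂ X] [UniformSpace X]
    {Y : Type u} [AddCommGroup Y] [Module ℂ Y] [UniformSpace Y]
    (M : FrechetModule A X) (N : FrechetModule A Y) (φ : X →L[ℂ] Y) : Prop :=
  ∀ (a : A) (x : X), φ (M.act a x) = N.act a (φ x)

/-- The Fréchet `A`-module `M` (on the space `X`) is injective: every morphism `φ` from it to a
Fréchet `A`-module that has a continuous linear left inverse has a left inverse that is a morphism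
of Fréchet `A`-modules. -/
def IsInjective {A : Type v} [NonUnitalRing A] [Module ℂ A] [UniformSpace A]
    {X : Type u} [AddCommGroup X] [Module ℂ X] [UniformSpace X]
    (M : FrechetModule A X) : Prop :=
  ∀ (Y : Type u) [AddCommGroup Y] [Module ℂ Y] [UniformSpace Y] (N : FrechetModule A Y)
    (φ : X →L[ℂ] Y), IsMorphism M N φ → (∃ r : Y →L[ℂ] X, ∀ x, r (φ x) = x) →
      ∃ ψ : Y →L[ℂ] X, IsMorphism N M ψ ∧ ∀ x, ψ (φ x) = x

/-- For a unital algebra: the module is unital. -/
def IsUnital {A : Type v} [Ring A] [Module ℂ A] [UniformSpace A]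
    {X : Type u} [AddCommGroup X] [Module ℂ X] [UniformSpace X]
    (M : FrechetModule A X) : Prop :=
  ∀ x : X, M.act 1 x = x

/-- Injectivity in the category of unital Fréchet modules over a unital Fréchet algebra. -/
def IsInjectiveUnital {A : Type v} [Ring A] [Module ℂ A] [UniformSpace A]
    {X : Type u} [AddCommGroup X] [Module ℂ X] [UniformSpace X]
    (M : FrechetModule A X) : Prop :=
  ∀ (Y : Type u) [AddCommGroup Y] [Module ℂ Y] [UniformSpace Y] (N : FrechetModule A Y),
    IsUnital N → ∀ (φ : X →L[ℂ] Y), IsMorphism M N φ →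
      (∃ r : Y →L[ℂ] X, ∀ x, r (φ x) = x) →
      ∃ ψ : Y →L[ℂ] X, IsMorphism N M ψ ∧ ∀ x, ψ (φ x) = x

/-! ### Topology of power series -/

theorem cts_coeff (n : ℕ) : Continuous (fun f : PowerSeries ℂ => PowerSeries.coeff n f) :=
  PowerSeries.WithPiTopology.continuous_coeff ℂ n

theorem continuous_iff_coeff {Z : Type*} [TopologicalSpace Z] (f : Z → PowerSeries ℂ) :
    Continuous f ↔ ∀ n, Continuous fun z => PowerSeries.coeff n (f z) := by
  constructor
  · intro h n
    exact (cts_coeff n).comp h
  · intro h
    refine continuous_pi fun d => ?_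
    have := h (d ())
    have e : Finsupp.single () (d ()) = d := by
      ext; simp
    simp only [PowerSeries.coeff, MvPowerSeries.coeff, e] at this
    exact this

theorem exists_nat_subset_of_mem_nhds {U : Set (PowerSeries ℂ)}
    (hU : U ∈ 𝓝 (0 : PowerSeries ℂ)) :
    ∃ N : ℕ, ∀ f : PowerSeries ℂ, (∀ n < N, PowerSeries.coeff n f = 0) → f ∈ U := by
  have key : ∀ V : Set ((Unit →₀ ℕ) → ℂ), V ∈ 𝓝 (0 : (Unit →₀ ℕ) → ℂ) →
      ∃ N : ℕ, ∀ f : (Unit →₀ ℕ) → ℂ, (∀ n < N, f (Finsupp.single () n) = 0) → f ∈ V := by
    intro V hV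
    rw [nhds_pi, Filter.mem_pi] at hV
    obtain ⟨I, hI, t, ht, hsub⟩ := hV
    refine ⟨(hI.toFinset.sup fun d => d ()) + 1, fun f hf => hsub ?_⟩
    intro d hd
    have h1 : d () < (hI.toFinset.sup fun d => d ()) + 1 := by
      have := Finset.le_sup (f := fun d : Unit →₀ ℕ => d ()) (hI.mem_toFinset.2 hd)
      omega
    have h2 := hf _ h1
    have e : Finsupp.single () (d ()) = d := by
      ext; simp
    rw [e] at h2
    rw [h2]
    exact mem_of_mem_nhds (ht d)
  exact key U hU

theorem frechetSpace_powerSeries : FrechetSpace (PowerSeries ℂ) where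
  isUniformAddGroup := inferInstance
  continuousSMul := by
    constructor
    rw [continuous_iff_coeff]
    intro n
    have : (fun z : ℂ × (PowerSeries ℂ) => PowerSeries.coeff n (z.1 • z.2)) =
        fun z : ℂ × (PowerSeries ℂ) => z.1 * PowerSeries.coeff n z.2 := by
      ext z; simp
    rw [this]
    exact continuous_fst.mul ((cts_coeff n).comp continuous_snd)
  locallyConvexSpace := by
    exact (inferInstance : LocallyConvexSpace ℝ ((Unit →₀ ℕ) → ℂ))
  t2Space := inferInstance
  isCountablyGenerated := by
    exact (inferInstance : (uniformity ((Unit →₀ ℕ) → ℂ)).IsCountablyGenerated)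
  completeSpace := inferInstance

/-! ### The shift -/

/-- `shift f = (f - f(0)) / X`. -/
noncomputable def shift (f : PowerSeries ℂ) : PowerSeries ℂ :=
  PowerSeries.mk fun n => PowerSeries.coeff (n + 1) f

@[simp] theorem coeff_shift (n : ℕ) (f : PowerSeries ℂ) :
    PowerSeries.coeff n (shift f) = PowerSeries.coeff (n + 1) f := by
  simp [shift]

theorem shift_add (f g : PowerSeries ℂ) : shift (f + g) = shift f + shift g := by
  ext n; simp

theorem shift_smul (c : ℂ) (f : PowerSeries ℂ) : shift (c • f) = c • shift f := by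
  ext n; simp

theorem shift_X_mul (f : PowerSeries ℂ) : shift (PowerSeries.X * f) = f := by
  ext n; simp [PowerSeries.coeff_succ_X_mul]

theorem shift_C (c : ℂ) : shift (PowerSeries.C c) = 0 := by
  ext n; simp

theorem eq_C_add (f : PowerSeries ℂ) :
    f = PowerSeries.C (PowerSeries.coeff 0 f) + PowerSeries.X * shift f := by
  ext n
  cases n with
  | zero => simp
  | succ n => simp [PowerSeries.coeff_succ_X_mul]

theorem shift_mul (a b : PowerSeries ℂ) :
    shift (a * b) = a * shift b + PowerSeries.coeff 0 b • shift a := by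
  have hb := eq_C_add b
  have ha := eq_C_add a
  set b0 := PowerSeries.coeff 0 b
  set a0 := PowerSeries.coeff 0 a
  have : a * b = PowerSeries.C (a0 * b0) +
      PowerSeries.X * (a * shift b + PowerSeries.C b0 * shift a) := by
    calc a * b = a * (PowerSeries.C b0 + PowerSeries.X * shift b) := by rw [← hb]
      _ = a * PowerSeries.C b0 + PowerSeries.X * (a * shift b) := by ring
      _ = (PowerSeries.C a0 + PowerSeries.X * shift a) * PowerSeries.C b0
            + PowerSeries.X * (a * shift b) := by rw [← ha]
      _ = PowerSeries.C (a0 * b0) +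
            PowerSeries.X * (a * shift b + PowerSeries.C b0 * shift a) := by
          rw [map_mul]; ring
  rw [this, shift_add, shift_C, shift_X_mul, zero_add, PowerSeries.smul_eq_C_mul]

theorem continuous_shift : Continuous shift := by
  rw [continuous_iff_coeff]
  intro n
  simp only [coeff_shift]
  exact cts_coeff (n + 1)

/-! ### The unital case -/

section Unital

variable {X : Type u} [AddCommGroup X] [Module ℂ X] [UniformSpace X]

/-- The one-dimensional extension of the module `X` by a vector `y` with `z y = x₀`. -/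
noncomputable def extend (M : FrechetModule (PowerSeries ℂ) X) (x₀ : X) :
    FrechetModule (PowerSeries ℂ) (X × ℂ) where
  frechet := by
    obtain ⟨h1, h2, h3, h4, h5, h6⟩ := M.frechet
    refine ⟨inferInstance, inferInstance, ?_, inferInstance, ?_, inferInstance⟩
    · exact (inferInstance : LocallyConvexSpace ℝ (X × ℂ))
    · exact (inferInstance : (uniformity (X × ℂ)).IsCountablyGenerated)
  act := LinearMap.mk₂ ℂ
    (fun a p => (M.act a p.1 + p.2 • M.act (shift a) x₀, PowerSeries.coeff 0 a * p.2))
    (by
      intro a b p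
      ext
      · simp [shift_add]; abel
      · simp [add_mul])
    (by
      intro c a p
      ext
      · simp [shift_smul, smul_comm c p.2]
      · simp [mul_assoc])
    (by
      intro a p q
      ext
      · simp [add_smul]; abel
      · simp [mul_add])
    (by
      intro c a p
      ext
      · simp [smul_smul]
      · simp; ring)
  act_mul := by
    intro a b p
    have hb : M.act (shift (a * b)) x₀ =
        M.act a (M.act (shift b) x₀) + PowerSeries.coeff 0 b • M.act (shift a) x₀ := by
      rw [shift_mul, map_add, LinearMap.add_apply, M.act_mul, map_smul, LinearMap.smul_apply]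
    ext
    · simp only [LinearMap.mk₂_apply, hb, M.act_mul, map_add, map_smul, smul_add, smul_smul]
      rw [mul_comm p.2]
      abel
    · simp; ring
  continuous_act := by
    obtain ⟨h1, h2, h3, h4, h5, h6⟩ := M.frechet
    simp only [LinearMap.mk₂_apply]
    refine Continuous.prodMk (Continuous.add ?_ (Continuous.smul ?_ ?_)) (Continuous.mul ?_ ?_)
    · exact M.continuous_act.comp (continuous_fst.prodMk (continuous_fst.comp continuous_snd))
    · exact continuous_snd.comp continuous_snd
    · exact M.continuous_act.comp ((continuous_shift.comp continuous_fst).prodMk continuous_const)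
    · exact (cts_coeff 0).comp continuous_fst
    · exact continuous_snd.comp continuous_snd

theorem extend_act (M : FrechetModule (PowerSeries ℂ) X) (x₀ : X) (a : PowerSeries ℂ)
    (p : X × ℂ) : (extend M x₀).act a p =
      (M.act a p.1 + p.2 • M.act (shift a) x₀, PowerSeries.coeff 0 a * p.2) := rfl

theorem divisible (M : FrechetModule (PowerSeries ℂ) X) (hu : IsUnital M)
    (hi : IsInjectiveUnital M) (x₀ : X) : ∃ x, M.act PowerSeries.X x = x₀ := by
  have hone : shift (1 : PowerSeries ℂ) = 0 := by
    have := shift_C 1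
    simpa using this
  obtain ⟨ψ, hψ, hψ'⟩ := hi (X × ℂ) (extend M x₀)
    (by
      intro p
      rw [extend_act, hone]
      ext
      · simp [hu p.1]
      · simp)
    (ContinuousLinearMap.inl ℂ X ℂ)
    (by
      intro a x
      rw [extend_act]
      simp)
    ⟨ContinuousLinearMap.fst ℂ X ℂ, fun x => by simp⟩
  refine ⟨ψ (0, 1), ?_⟩
  rw [← hψ, extend_act]
  have hX : shift (PowerSeries.X : PowerSeries ℂ) = 1 := by
    have := shift_X_mul 1
    simpa using this
  rw [hX, hu x₀]
  have := hψ' x₀
  simpa using this

theorem divisible_pow (M : FrechetModule (PowerSeries ℂ) X) (hu : IsUnital M)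
    (hi : IsInjectiveUnital M) (N : ℕ) (x₀ : X) :
    ∃ x, M.act (PowerSeries.X ^ N) x = x₀ := by
  induction N generalizing x₀ with
  | zero => exact ⟨x₀, by simpa using hu x₀⟩
  | succ N ih =>
    obtain ⟨y, hy⟩ := divisible M hu hi x₀
    obtain ⟨x, hx⟩ := ih y
    refine ⟨x, ?_⟩
    rw [pow_succ', M.act_mul, hx, hy]

theorem subsingleton_of_injectiveUnital (M : FrechetModule (PowerSeries ℂ) X) (hu : IsUnital M)
    (hi : IsInjectiveUnital M) : Subsingleton X := by
  obtain ⟨h1, h2, h3, h4, h5, h6⟩ := M.frechet
  suffices h : ∀ x : X, x = 0 from ⟨fun x y => by rw [h x, h y]⟩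
  intro x₀
  by_contra hx₀
  have hW : ({x₀}ᶜ : Set X) ∈ 𝓝 (0 : X) := isOpen_compl_singleton.mem_nhds (Ne.symm hx₀)
  have hc := M.continuous_act.tendsto ((0 : PowerSeries ℂ), (0 : X))
  have h0 : M.act (0 : PowerSeries ℂ) (0 : X) = 0 := by simp
  simp only [h0] at hc
  have hpre := hc hW
  rw [Filter.mem_map, nhds_prod_eq, Filter.mem_prod_iff] at hpre
  obtain ⟨U, hU, V, hV, hUV⟩ := hpre
  obtain ⟨N, hN⟩ := exists_nat_subset_of_mem_nhds hU
  obtain ⟨x, hx⟩ := divisible_pow M hu hi N x₀
  have ht : ∀ᶠ t : ℂ in 𝓝[≠] 0, t • x ∈ V := by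
    have h1 : Filter.Tendsto (fun t : ℂ => t • x) (𝓝 0) (𝓝 ((0 : ℂ) • x)) :=
      (continuous_id.smul continuous_const).tendsto 0
    rw [zero_smul] at h1
    exact (h1.mono_left nhdsWithin_le_nhds) hV
  obtain ⟨t, ht1, ht2⟩ := (ht.and self_mem_nhdsWithin).exists
  have ht0 : t ≠ 0 := ht2
  have hmem : ((t⁻¹ • (PowerSeries.X ^ N : PowerSeries ℂ), t • x) :
      PowerSeries ℂ × X) ∈ U ×ˢ V := by
    refine ⟨hN _ ?_, ht1⟩
    intro n hn
    simp [PowerSeries.coeff_X_pow, hn.ne]
  have := hUV hmem
  simp only [Set.mem_preimage, Set.mem_compl_iff, Set.mem_singleton_iff] at this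
  apply this
  rw [map_smul, map_smul, LinearMap.smul_apply, smul_smul, mul_inv_cancel₀ ht0, one_smul, hx]

end Unital

/-! ### The non-unital algebra `z ℂ[[z]]` -/

/-- The non-unital algebra `z ℂ[[z]]` of formal power series without constant term. -/
def augIdeal : NonUnitalSubalgebra ℂ (PowerSeries ℂ) where
  carrier := {f | PowerSeries.coeff 0 f = 0}
  add_mem' := by
    intro a b ha hb
    simp only [Set.mem_ofPred_eq] at *
    rw [map_add, ha, hb, add_zero]
  zero_mem' := by simp
  mul_mem' := by
    intro a b ha hb
    simp only [Set.mem_ofPred_eq] at *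
    rw [PowerSeries.coeff_zero_eq_constantCoeff_apply] at *
    rw [map_mul, ha, zero_mul]
  smul_mem' := by
    intro c a ha
    simp only [Set.mem_ofPred_eq] at *
    rw [map_smul, ha, smul_zero]

theorem mem_augIdeal (f : PowerSeries ℂ) : f ∈ augIdeal ↔ PowerSeries.coeff 0 f = 0 := Iff.rfl

theorem frechetSpace_augIdeal : FrechetSpace augIdeal := by
  obtain ⟨h1, h2, h3, h4, h5, h6⟩ := frechetSpace_powerSeries
  have hcl : IsClosed (augIdeal : Set (PowerSeries ℂ)) :=
    isClosed_eq (cts_coeff 0) continuous_const
  refine ⟨?_, ?_, ?_, ?_, ?_, ?_⟩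
  · exact (inferInstance : IsUniformAddGroup (augIdeal.toSubmodule.toAddSubgroup))
  · exact (inferInstance : ContinuousSMul ℂ (augIdeal.toSubmodule))
  · let : Module ℝ (PowerSeries ℂ) := Module.complexToReal _
    have : LocallyConvexSpace ℝ (PowerSeries ℂ) := h3
    let f : augIdeal →ₗ[ℝ] PowerSeries ℂ :=
      { toFun := fun a => a
        map_add' := fun a b => rfl
        map_smul' := fun c a => rfl }
    exact Topology.IsInducing.locallyConvexSpace (𝕜 := ℝ) (f := f) Topology.IsInducing.subtypeVal
  · exact (inferInstance : T2Space (augIdeal : Set (PowerSeries ℂ)))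
  · exact (inferInstance : (uniformity (augIdeal : Set (PowerSeries ℂ))).IsCountablyGenerated)
  · exact hcl.completeSpace_coe

theorem frechetAlgebra_augIdeal : FrechetAlgebra augIdeal where
  frechet := frechetSpace_augIdeal
  smul_mul := fun c a b => smul_mul_assoc c a b
  mul_smul := fun c a b => mul_smul_comm c a b
  continuous_mul := by
    refine Continuous.subtype_mk ?_ _
    exact (continuous_subtype_val.comp continuous_fst).mul
      (continuous_subtype_val.comp continuous_snd)

theorem frechetAlgebra_powerSeries : FrechetAlgebra (PowerSeries ℂ) where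
  frechet := frechetSpace_powerSeries
  smul_mul := fun c a b => smul_mul_assoc c a b
  mul_smul := fun c a b => mul_smul_comm c a b
  continuous_mul := continuous_mul

/-- `f ↦ f - f(0)` -/
noncomputable def aug : PowerSeries ℂ →ₗ[ℂ] augIdeal where
  toFun f := ⟨f - PowerSeries.coeff 0 f • (1 : PowerSeries ℂ), by
    rw [mem_augIdeal]; simp⟩
  map_add' := by
    intro f g
    ext1
    simp [add_smul]
    abel
  map_smul' := by
    intro c f
    ext1
    simp [smul_sub, smul_smul]

theorem coe_aug (f : PowerSeries ℂ) :
    ((aug f : augIdeal) : PowerSeries ℂ) = f - PowerSeries.coeff 0 f • (1 : PowerSeries ℂ) := rfl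

theorem aug_coe (a : augIdeal) : aug (a : PowerSeries ℂ) = a := by
  ext1
  rw [coe_aug, (mem_augIdeal _).1 a.2]
  simp

theorem aug_one : aug (1 : PowerSeries ℂ) = 0 := by
  ext1
  rw [coe_aug]
  simp

theorem aug_mul (f g : PowerSeries ℂ) : aug (f * g) =
    PowerSeries.coeff 0 f • aug g + PowerSeries.coeff 0 g • aug f + aug f * aug g := by
  have h : PowerSeries.coeff 0 (f * g) = PowerSeries.coeff 0 f * PowerSeries.coeff 0 g := by
    simp
  ext1
  rw [coe_aug, h]
  simp only [NonUnitalSubalgebra.coe_add, NonUnitalSubalgebra.coe_smul,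
    NonUnitalSubalgebra.coe_mul, coe_aug]
  simp only [sub_mul, mul_sub, smul_mul_assoc, one_mul, mul_smul_comm, mul_one, smul_sub,
    smul_smul]
  rw [mul_comm (PowerSeries.coeff 0 g)]
  abel

theorem continuous_aug : Continuous aug := by
  refine Continuous.subtype_mk ?_ _
  have := frechetSpace_powerSeries.continuousSMul
  exact continuous_id.sub ((cts_coeff 0).smul continuous_const)

section NonUnital

variable {X : Type u} [AddCommGroup X] [Module ℂ X] [UniformSpace X]

/-- Extend the action of `z ℂ[[z]]` to a unital action of `ℂ[[z]]`. -/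
noncomputable def unitize (M : FrechetModule augIdeal X) : FrechetModule (PowerSeries ℂ) X where
  frechet := M.frechet
  act := LinearMap.mk₂ ℂ (fun f x => PowerSeries.coeff 0 f • x + M.act (aug f) x)
    (by intro f g x; simp [add_smul]; abel)
    (by intro c f x; simp [smul_smul])
    (by intro f x y; simp; abel)
    (by intro c f x; simp [smul_comm c])
  act_mul := by
    intro f g x
    have h : PowerSeries.coeff 0 (f * g) = PowerSeries.coeff 0 f * PowerSeries.coeff 0 g := by
      simp
    simp only [LinearMap.mk₂_apply, h, aug_mul, map_add, map_smul, LinearMap.add_apply,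
      LinearMap.smul_apply, M.act_mul, smul_add, smul_smul]
    rw [mul_comm (PowerSeries.coeff 0 g) (PowerSeries.coeff 0 f)]
    abel
  continuous_act := by
    obtain ⟨h1, h2, h3, h4, h5, h6⟩ := M.frechet
    simp only [LinearMap.mk₂_apply]
    refine Continuous.add (Continuous.smul ((cts_coeff 0).comp continuous_fst) continuous_snd) ?_
    exact M.continuous_act.comp ((continuous_aug.comp continuous_fst).prodMk continuous_snd)

theorem unitize_act (M : FrechetModule augIdeal X) (f : PowerSeries ℂ) (x : X) :
    (unitize M).act f x = PowerSeries.coeff 0 f • x + M.act (aug f) x := rfl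

theorem isUnital_unitize (M : FrechetModule augIdeal X) : IsUnital (unitize M) := by
  intro x
  rw [unitize_act, aug_one]
  simp

/-- Restrict the action of `ℂ[[z]]` to `z ℂ[[z]]`. -/
noncomputable def restrict (N : FrechetModule (PowerSeries ℂ) X) : FrechetModule augIdeal X where
  frechet := N.frechet
  act := N.act ∘ₗ augIdeal.toSubmodule.subtype
  act_mul := by
    intro a b x
    exact N.act_mul (a : PowerSeries ℂ) b x
  continuous_act := by
    exact N.continuous_act.comp
      ((continuous_subtype_val.comp continuous_fst).prodMk continuous_snd)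

theorem restrict_act (N : FrechetModule (PowerSeries ℂ) X) (a : augIdeal) (x : X) :
    (restrict N).act a x = N.act (a : PowerSeries ℂ) x := rfl

theorem isInjectiveUnital_unitize (M : FrechetModule augIdeal X) (hM : IsInjective M) :
    IsInjectiveUnital (unitize M) := by
  intro Y _ _ _ N hN φ hφ hr
  obtain ⟨ψ, hψ, hψ'⟩ := hM Y (restrict N) φ
    (by
      intro a x
      rw [restrict_act, ← hφ, unitize_act, aug_coe, (mem_augIdeal _).1 a.2]
      simp) hr
  refine ⟨ψ, ?_, hψ'⟩
  intro f y
  have hf : f = PowerSeries.coeff 0 f • (1 : PowerSeries ℂ) + (aug f : augIdeal) := by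
    rw [coe_aug]; abel
  rw [unitize_act]
  conv_lhs => rw [hf]
  rw [map_add, LinearMap.add_apply, map_smul, LinearMap.smul_apply, hN y, map_add, map_smul,
    ← hψ, restrict_act]

theorem subsingleton_of_injective (M : FrechetModule augIdeal X) (hM : IsInjective M) :
    Subsingleton X :=
  subsingleton_of_injectiveUnital (unitize M) (isUnital_unitize M)
    (isInjectiveUnital_unitize M hM)

end NonUnital


end Pool.Agent.X182.Fre
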